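import Pool.Agent.Q60.D3G.StmC

/-!
# Job D3G LINE of helper60: an odd function whose right translates are multiples of it
-/

namespace Pool.Agent.Q225.D3G

open Module Pool.Agent.W547.LD Pool.Agent.W547.LD.Comb Pool.Agent.Q60.D3G

theorem line : S_line := by
  intro G _ _ c hc F hodd h
  by_cases hF : F = 0
  · rw [hF]
    exact Submodule.zero_mem _
  choose a ha using h
  have hval : ∀ σ g, F (σ * g) = a g * F σ := fun σ g => by
    have := congrFun (ha g) σ
    rw [rtr_apply] at this
    exact this
  have h1 : ∀ g, F g = a g * F 1 := fun g => by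
    have := hval 1 g
    rwa [one_mul] at this
  have hF1 : F 1 ≠ 0 := by
    intro h0
    apply hF
    funext g
    rw [h1 g, h0, mul_zero]
    rfl
  have hmul : ∀ g k, a (g * k) = a g * a k := fun g k => by
    have h2 := hval g k
    rw [h1 (g * k), h1 g] at h2
    have h3 : (a (g * k) - a g * a k) * F 1 = 0 := by linear_combination h2
    rcases mul_eq_zero.1 h3 with h4 | h4
    · linarith
    · exact absurd h4 hF1
  have hone : a 1 = 1 := by
    have h2 := h1 1
    have h3 : (a 1 - 1) * F 1 = 0 := by linear_combination -h2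
    rcases mul_eq_zero.1 h3 with h4 | h4
    · linarith
    · exact absurd h4 hF1
  have hpow : ∀ g (n : ℕ), a (g ^ n) = a g ^ n := fun g n => by
    induction n with
    | zero => rw [pow_zero, pow_zero, hone]
    | succ n ih => rw [pow_succ, pow_succ, hmul, ih]
  have hpm : ∀ g, a g = 1 ∨ a g = -1 := fun g => by
    have h2 : a g ^ (Fintype.card G) = 1 := by
      rw [← hpow, pow_card_eq_one, hone]
    have h3 : |a g| ^ (Fintype.card G) = 1 := by rw [← abs_pow, h2, abs_one]
    have h4 : |a g| = 1 := (pow_eq_one_iff_of_nonneg (abs_nonneg _) Fintype.card_ne_zero).1 h3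
    exact eq_or_eq_neg_of_abs_eq h4
  have hac : a c = -1 := by
    have h2 := hodd 1
    rw [mul_one, h1 c] at h2
    have h3 : (a c + 1) * F 1 = 0 := by linear_combination h2
    rcases mul_eq_zero.1 h3 with h4 | h4
    · linarith
    · exact absurd h4 hF1
  let N : Subgroup G :=
    { carrier := {g | a g = 1}
      mul_mem' := fun {g k} hg hk => by
        change a (g * k) = 1
        rw [hmul, show a g = 1 from hg, show a k = 1 from hk, one_mul]
      one_mem' := hone
      inv_mem' := fun {g} hg => by
        change a g⁻¹ = 1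
        have h2 : a (g * g⁻¹) = 1 := by rw [mul_inv_cancel, hone]
        rw [hmul, show a g = 1 from hg, one_mul] at h2
        exact h2 }
  have hmem : ∀ g, g ∈ N ↔ a g = 1 := fun g => Iff.rfl
  have hN : Imag c N := by
    refine ⟨fun h2 => ?_, fun τ hτ => ?_⟩
    · rw [hmem, hac] at h2
      norm_num at h2
    · rw [hmem] at hτ ⊢
      rcases hpm τ with h2 | h2
      · exact absurd h2 hτ
      · rw [hmul, hac, h2]
        norm_num
  have h2 : F = F 1 • eps {σ | σ ∈ N} :=
    eq_smul_eps hN (fun τ hτ => by rw [ha τ, (hmem τ).1 hτ, one_smul]) hodd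
  rw [h2]
  exact Submodule.smul_mem _ _ (eps_mem_QQ hN)

end Pool.Agent.Q225.D3G
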